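import Pool.Agent.Helper6.OB.Goals

/-!
# Project OB, packet FUS: the ordered variable word
-/

set_option autoImplicit false

namespace Pool.Agent.Helper14.OB

open Pool.Agent.Helper6.CS Pool.Agent.Helper6.OB
open Pool.Agent.Helper41.CS (Vx OOW limW limW_oow inst_limW nil_app over_nil)

set_option synthInstance.maxSize 1000000000

/-- The relation from which the blocks are picked. -/
def QQ {M : Type} [World M] (a : M) (G : M → Wd M × Wd M → Prop) (L : M)
    (y : Wd M × Wd M) : Prop := Bk a y ∧ G L y

theorem t_FUS : G_FUS := by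
  intro hREC M _ a b f H G hSt k hDet
  have hipG : IP M fun p : M × (Wd M × Wd M) => G p.1 p.2 := hSt.ip
  have hipQ : IP M fun p : M × (Wd M × Wd M) => QQ a G p.1 p.2 := by
    unfold QQ
    infer_instance
  have hex : ∀ L, ∃ y, QQ a G L y := by
    intro L
    obtain ⟨B, hB⟩ := hSt.many L 1
    obtain ⟨χ, hχ⟩ := code_num (fun _ : Wd M => (0 : M)) a (L + B)
    obtain ⟨y, h1, -, -, h2⟩ := hB χ (fun z hz hl => by
      rw [hχ z hz hl]
      exact zero_lt_one)
    exact ⟨y, h1, h2⟩
  have hpQ : ∀ L, IP M (QQ a G L) := by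
    intro L
    exact IP.comp (f := fun q : Wd M × Wd M => (L, q)) hipQ inferInstance
  have hspec : ∀ L, QQ a G L (pick M (QQ a G L)) := by
    intro L
    have := hpQ L
    exact pick_spec (hex L)
  have hpk : IFn M fun L : M => pick M (QQ a G L) :=
    IFn.pick (P := fun (L : M) (q : Wd M × Wd M) => QQ a G L q)
  have hpk2 : IFn M fun p : M × Wd M => pick M (QQ a G p.2.len) :=
    IFn.comp (f := fun p : M × Wd M => p.2.len) hpk inferInstance
  have hst : IFn M fun p : M × Wd M => p.2 ++ (pick M (QQ a G p.2.len)).1 ++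
      Wd.sub a (a + p.1) (pick M (QQ a G p.2.len)).2 := by
    infer_instance
  obtain ⟨F, hFi, h0, hF⟩ := hREC M (Wd.nil M) (fun p : M × Wd M =>
    p.2 ++ (pick M (QQ a G p.2.len)).1 ++ Wd.sub a (a + p.1) (pick M (QQ a G p.2.len)).2) hst
  have hP : IFn M fun j : M => pick M (QQ a G (F j).len) :=
    IFn.comp (f := fun j : M => (F j).len) hpk inferInstance
  let S : M → Wd M := fun j => (pick M (QQ a G (F j).len)).1
  let U : M → Wd M := fun j => (pick M (QQ a G (F j).len)).2
  have hSi : IFn M S := by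
    change IFn M fun j : M => (pick M (QQ a G (F j).len)).1
    infer_instance
  have hUi : IFn M U := by
    change IFn M fun j : M => (pick M (QQ a G (F j).len)).2
    infer_instance
  have hF' : ∀ j, F (j + 1) = F j ++ S j ++ Wd.sub a (a + j) (U j) := fun j => hF j
  have hB : BSeq a G F S U := ⟨hFi, hSi, hUi, h0, hF', fun j => (hspec (F j).len).1,
    fun j => (hspec (F j).len).2⟩
  have hS : ∀ j, Over a (S j) := fun j => (hB.bk j).1
  have hU : ∀ j, Vx a (U j) := fun j => (hB.bk j).2
  refine ⟨limW F, inferInstance, limW_oow h0 hS hU hF', fun i hi c c' hc => ?_⟩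
  have h := hDet F S U hB (Wd.nil M) (Wd.nil M) (over_nil b) (over_nil b) rfl i hi c c' hc
  rw [nil_app, nil_app] at h
  rw [inst_limW h0 hS hU hF', inst_limW h0 hS hU hF']
  exact h

end Pool.Agent.Helper14.OB
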