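import Pool.Agent.Helper73.OB.GoalsA

/-!
Packet OB-RELAB (project OB, MP_fc0446_an): relabelling a Bernoulli label by an isomorphism of laws.
-/

open MeasureTheory ProbabilityTheory
open scoped ENNReal

namespace Pool.Agent.Helper14.OB

open Pool.Agent.Helper73.OB

theorem relab : Pool.Agent.Helper73.OB.S_RELAB := by
  intro S X L L' _ _ _ _ β μ _ f law law' _ _ j j' hsys hj hj' hjj l hl
  obtain ⟨hlm, hfl⟩ := hl
  have : Countable (RW β) := inferInstance
  have hjm : Measurable j := hj.measurable
  have hjm' : Measurable j' := hj'.measurable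
  -- coordinatewise maps
  have hmap : MeasurePreserving (fun (ω : RW β → L) (w : RW β) => j (ω w)) (iid β law)
      (iid β law') := by
    refine ⟨by fun_prop, ?_⟩
    have := Measure.infinitePi_map_pi (μ := fun _ : RW β => law) (Y := fun _ : RW β => L')
      (f := fun _ : RW β => j) (fun _ => hjm)
    simp only [hj.map_eq] at this
    exact this
  -- the law of the label at a vertex
  have hw : ∀ w : RW β, MeasurePreserving (fun x => l (run f w.1 x)) μ law := fun w =>
    (measurePreserving_eval_infinitePi (fun _ : RW β => law) w).comp hfl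
  have hae : ∀ᵐ x ∂μ, ∀ w : RW β, j' (j (l (run f w.1 x))) = l (run f w.1 x) := by
    rw [ae_all_iff]
    intro w
    exact (hw w).quasiMeasurePreserving.ae hjj
  refine ⟨⟨hjm.comp hlm, hmap.comp hfl⟩, ?_, ?_⟩
  · filter_upwards [hae] with x hx
    exact hx (rootW β)
  · rintro ⟨ρ, hρm, hρ⟩
    refine ⟨fun ω => ρ (fun w => j' (ω w)), hρm.comp (by fun_prop), ?_⟩
    filter_upwards [hae, hρ] with x hx hρx
    have : (fun w : RW β => j' (field β f (fun x => j (l x)) x w)) = field β f l x := by
      funext w
      exact hx w
    rw [this]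
    exact hρx

end Pool.Agent.Helper14.OB
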